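import Mathlib

/-!
# The ratios arc-complexity / number of elements are dense in the positive reals

Adding loops does not change the arc-complexity, so it is enough to find gammoids `M` on `n`
elements with `arcC(M) > c n` and `n` large, for every `c`.  These exist by counting: there are
`2 ^ (m ^ 2)` labelled fundamental transversal matroids on `2 m` elements, but far fewer matroids
have a standard representation with at most `c n` arcs.
-/

namespace Pool.Agent.Results.MP_1bde1f_co.DenseRatios

open Set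

/-- Paths of the digraph with arc set `A`: nonempty sequences of distinct vertices, consecutive
ones being joined by an arc. -/
def IsPath {V : Type} (A : Set (V × V)) (p : List V) : Prop :=
  p ≠ [] ∧ p.Nodup ∧ p.IsChain (fun a b => (a, b) ∈ A)

/-- `R` is a routing from `X` to `T`. -/
def IsRouting {V : Type} (A : Set (V × V)) (X T : Set V) (R : Set (List V)) : Prop :=
  (∀ p ∈ R, IsPath A p) ∧ (∀ p ∈ R, ∀ q ∈ R, p ≠ q → ∀ v ∈ p, v ∉ q) ∧
  (∀ x ∈ X, ∃ p ∈ R, p.head? = some x) ∧ (∀ p ∈ R, ∃ t ∈ T, p.getLast? = some t)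

/-- `M` is the gammoid `Γ(D, T, E)`, the ground set being identified with vertices of `D` through
the injection `f`. -/
def IsRep {α V : Type} (M : Matroid α) (A : Set (V × V)) (f : α ↪ V) (T : Set V) : Prop :=
  ∀ X ⊆ M.E, (M.Indep X ↔ ∃ R, IsRouting A (f '' X) T R)

/-- Gammoids. -/
def IsGammoid {α : Type} (M : Matroid α) : Prop :=
  ∃ (V : Type) (_ : Finite V) (A : Set (V × V)) (f : α ↪ V) (T : Set V), IsRep M A f T

/-- Standard representations: the targets are elements (`T ⊆ E`) and sinks, the other elements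
are sources. -/
structure IsStdRep {α V : Type} (M : Matroid α) (A : Set (V × V)) (f : α ↪ V) (T : Set α) :
    Prop where
  subset_ground : T ⊆ M.E
  rep : IsRep M A f (f '' T)
  sink : ∀ t ∈ T, ∀ v, (f t, v) ∉ A
  source : ∀ e ∈ M.E, e ∉ T → ∀ v, (v, f e) ∉ A

/-- The arc-complexity of a gammoid. -/
noncomputable def arcC {α : Type} (M : Matroid α) : ℕ :=
  sInf {k | ∃ (V : Type) (_ : Finite V) (A : Set (V × V)) (f : α ↪ V) (T : Set α),
    IsStdRep M A f T ∧ A.ncard = k}

/-- The set `S` of the ratios `arcC(M) / |E|`. -/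
def ratios : Set ℝ :=
  {x | ∃ (n : ℕ) (M : Matroid (Fin n)), 0 < n ∧ M.E = univ ∧ IsGammoid M ∧
    x = (arcC M : ℝ) / n}

/-- `M` has a standard representation with exactly `k` arcs. -/
def HasStd {α : Type} (M : Matroid α) (k : ℕ) : Prop :=
  ∃ (V : Type) (_ : Finite V) (A : Set (V × V)) (f : α ↪ V) (T : Set α),
    IsStdRep M A f T ∧ A.ncard = k

theorem arcC_spec {α : Type} {M : Matroid α} {k : ℕ} (h : HasStd M k) : HasStd M (arcC M) :=
  Nat.sInf_mem (s := {k | HasStd M k}) ⟨k, h⟩

theorem arcC_le {α : Type} {M : Matroid α} {k : ℕ} (h : HasStd M k) : arcC M ≤ k :=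
  Nat.sInf_le (s := {k | HasStd M k}) h

theorem HasStd.gammoid {α : Type} {M : Matroid α} {k : ℕ} (h : HasStd M k) : IsGammoid M := by
  obtain ⟨V, hV, A, f, T, h, -⟩ := h
  exact ⟨V, hV, A, f, _, h.rep⟩

/-! ### Adding loops -/

section loops

variable {n N : ℕ}

/-- Add loops to reach `N` elements. -/
def addLoops (h : n ≤ N) (M : Matroid (Fin n)) : Matroid (Fin N) :=
  (M.mapEmbedding (Fin.castLEEmb h)).restrict univ

theorem addLoops_indep (h : n ≤ N) (M : Matroid (Fin n)) (X : Set (Fin N)) :
    (addLoops h M).Indep X ↔ M.Indep (Fin.castLE h ⁻¹' X) ∧ X ⊆ range (Fin.castLE h) := by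
  unfold addLoops
  rw [Matroid.restrict_indep_iff, Matroid.mapEmbedding_indep_iff]
  simp

/-- In a path all of whose vertices except possibly the last one emit an arc, all vertices lie in
any set containing the last vertex and the tails of the arcs. -/
theorem path_mem {V : Type} {A : Set (V × V)} {U : Set V} (hA : ∀ a ∈ A, a.1 ∈ U) :
    ∀ p : List V, p.IsChain (fun a b => (a, b) ∈ A) → (∀ t, p.getLast? = some t → t ∈ U) →
      ∀ v ∈ p, v ∈ U
  | [], _, _, v, hv => absurd hv (by simp)
  | [a], _, h, v, hv => by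
      rw [List.mem_singleton] at hv
      subst hv
      exact h v rfl
  | a :: b :: l, hc, h, v, hv => by
      rw [List.isChain_cons_cons] at hc
      rcases List.mem_cons.1 hv with rfl | hv
      · exact hA _ hc.1
      · exact path_mem hA (b :: l) hc.2 (fun t ht => h t (by simpa using ht)) v hv

theorem addLoops_up (h : n ≤ N) {M : Matroid (Fin n)} (hM : M.E = univ) {k : ℕ}
    (hk : HasStd M k) : HasStd (addLoops h M) k := by
  classical
  obtain ⟨V, hV, A, f, T, hrep, hA⟩ := hk
  -- new vertices: all the elements of the new ground set outside the image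
  let g : Fin N ↪ V ⊕ Fin N := ⟨fun x => if hx : x.val < n then Sum.inl (f ⟨x.val, hx⟩) else
    Sum.inr x, by
      intro x y hxy
      by_cases hx : x.val < n
      · by_cases hy : y.val < n
        · simp only [dif_pos hx, dif_pos hy] at hxy
          have := f.injective (Sum.inl_injective hxy)
          have h2 : x.val = y.val := congrArg (fun z : Fin n => z.val) this
          exact Fin.ext h2
        · simp only [dif_pos hx, dif_neg hy] at hxy
          exact absurd hxy (by simp)
      · by_cases hy : y.val < n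
        · simp only [dif_neg hx, dif_pos hy] at hxy
          exact absurd hxy (by simp)
        · simp only [dif_neg hx, dif_neg hy] at hxy
          exact Sum.inr_injective hxy⟩
  have hg : ∀ x : Fin n, g (Fin.castLE h x) = Sum.inl (f x) := by
    intro x
    show (dite _ _ _) = _
    rw [dif_pos (show (Fin.castLE h x).val < n from x.2)]
    rfl
  have hg' : ∀ x : Fin N, ¬ x.val < n → g x = Sum.inr x := fun x hx => dif_neg hx
  have hinj : Function.Injective (Prod.map (Sum.inl : V → V ⊕ Fin N) (Sum.inl : V → V ⊕ Fin N)) :=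
    Sum.inl_injective.prodMap Sum.inl_injective
  have hrange : ∀ x : Fin N, x ∈ range (Fin.castLE h) ↔ x.val < n := by
    intro x
    constructor
    · rintro ⟨y, rfl⟩; exact y.2
    · intro hx; exact ⟨⟨x.val, hx⟩, rfl⟩
  refine ⟨V ⊕ Fin N, inferInstance, Prod.map Sum.inl Sum.inl '' A, g, Fin.castLE h '' T,
    ⟨subset_univ _, ?_, ?_, ?_⟩, ?_⟩
  · intro X _
    rw [addLoops_indep]
    have himT : g '' (Fin.castLE h '' T) = Sum.inl '' (f '' T) := by
      rw [image_image, image_image]
      exact image_congr (fun x _ => hg x)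
    constructor
    · rintro ⟨h1, h2⟩
      obtain ⟨R, hR1, hR2, hR3, hR4⟩ := (hrep.rep _ (by rw [hM]; exact subset_univ _)).1 h1
      have hX : X = Fin.castLE h '' (Fin.castLE h ⁻¹' X) := (image_preimage_eq_of_subset h2).symm
      refine ⟨List.map Sum.inl '' R, ?_, ?_, ?_, ?_⟩
      · rintro _ ⟨p, hp, rfl⟩
        obtain ⟨e1, e2, e3⟩ := hR1 p hp
        refine ⟨by simpa using e1, e2.map Sum.inl_injective, ?_⟩
        rw [List.isChain_map]
        exact e3.imp (fun a b hab => ⟨(a, b), hab, rfl⟩)
      · rintro _ ⟨p, hp, rfl⟩ _ ⟨q, hq, rfl⟩ hne v hv1 hv2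
        rw [List.mem_map] at hv1 hv2
        obtain ⟨a, ha, rfl⟩ := hv1
        obtain ⟨b, hb, hab⟩ := hv2
        rw [Sum.inl_injective hab] at hb
        exact hR2 p hp q hq (fun he => hne (by rw [he])) a ha hb
      · rintro _ ⟨x, hx, rfl⟩
        rw [hX] at hx
        obtain ⟨y, hy, rfl⟩ := hx
        obtain ⟨p, hp, hpx⟩ := hR3 (f y) ⟨y, hy, rfl⟩
        refine ⟨_, ⟨p, hp, rfl⟩, ?_⟩
        rw [List.head?_map, hpx, hg]; rfl
      · rintro _ ⟨p, hp, rfl⟩
        obtain ⟨t, ht, hpt⟩ := hR4 p hp
        refine ⟨Sum.inl t, ?_, ?_⟩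
        · rw [himT]; exact ⟨t, ht, rfl⟩
        · rw [List.getLast?_map, hpt]; rfl
    · rintro ⟨R, hR1, hR2, hR3, hR4⟩
      -- every path of `R` lives in `V`
      have hmem : ∀ p ∈ R, ∀ v ∈ p, v ∈ range (Sum.inl : V → V ⊕ Fin N) := by
        intro p hp
        apply path_mem (A := Prod.map Sum.inl Sum.inl '' A)
        · rintro _ ⟨a, _, rfl⟩; exact ⟨a.1, rfl⟩
        · exact (hR1 p hp).2.2
        · intro t ht
          obtain ⟨t', ht', hpt⟩ := hR4 p hp
          rw [ht] at hpt
          rw [Option.some_injective _ hpt]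
          rw [himT] at ht'
          obtain ⟨s, -, rfl⟩ := ht'
          exact ⟨s, rfl⟩
      have hXr : X ⊆ range (Fin.castLE h) := by
        intro x hx
        rw [hrange]
        by_contra hlt
        obtain ⟨p, hp, hpx⟩ := hR3 (g x) ⟨x, hx, rfl⟩
        have h3 := hmem p hp (g x) (List.mem_of_head? hpx)
        rw [hg' x hlt] at h3
        obtain ⟨v, hv⟩ := h3
        exact absurd hv (by simp)
      refine ⟨?_, hXr⟩
      rw [hrep.rep _ (by rw [hM]; exact subset_univ _)]
      -- pull back the routing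
      have hlift : ∀ p ∈ R, ∃ q : List V, p = q.map Sum.inl := by
        intro p hp
        have := hmem p hp
        clear hp
        induction p with
        | nil => exact ⟨[], rfl⟩
        | cons a l ih =>
          obtain ⟨q, hq⟩ := ih (fun v hv => this v (List.mem_cons_of_mem _ hv))
          obtain ⟨v, hv⟩ := this a List.mem_cons_self
          exact ⟨v :: q, by rw [List.map_cons, hv, hq]⟩
      refine ⟨{q | q.map Sum.inl ∈ R}, ?_, ?_, ?_, ?_⟩
      · intro q hq
        obtain ⟨e1, e2, e3⟩ := hR1 _ hq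
        refine ⟨by simpa using e1, List.Nodup.of_map _ e2, ?_⟩
        rw [List.isChain_map] at e3
        refine e3.imp (fun a b hab => ?_)
        obtain ⟨c, hc, hcab⟩ := hab
        have h5 := hinj (a₁ := c) (a₂ := (a, b)) hcab
        rw [← h5]; exact hc
      · intro p hp q hq hne v hv1 hv2
        refine hR2 _ hp _ hq ?_ (Sum.inl v) (List.mem_map_of_mem hv1) (List.mem_map_of_mem hv2)
        intro he
        exact hne (List.map_injective_iff.2 Sum.inl_injective he)
      · rintro _ ⟨x, hx, rfl⟩
        obtain ⟨p, hp, hpx⟩ := hR3 (g (Fin.castLE h x)) ⟨_, hx, rfl⟩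
        obtain ⟨q, rfl⟩ := hlift p hp
        refine ⟨q, hp, ?_⟩
        rw [List.head?_map, hg] at hpx
        exact Option.map_injective Sum.inl_injective hpx
      · intro q hq
        obtain ⟨t, ht, hqt⟩ := hR4 _ hq
        rw [himT] at ht
        obtain ⟨s, hs, rfl⟩ := ht
        refine ⟨s, hs, ?_⟩
        rw [List.getLast?_map] at hqt
        exact Option.map_injective Sum.inl_injective hqt
  · rintro _ ⟨t, ht, rfl⟩ v ⟨a, ha, hav⟩
    rw [hg] at hav
    have h1 := congrArg Prod.fst hav
    have h2 : a.1 = f t := Sum.inl_injective h1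
    apply hrep.sink t ht a.2
    rw [← h2]; exact ha
  · intro e _ he v
    rintro ⟨a, ha, hav⟩
    have h1 : Sum.inl a.2 = g e := congrArg Prod.snd hav
    by_cases hlt : e.val < n
    · have h2 : e = Fin.castLE h ⟨e.val, hlt⟩ := rfl
      rw [h2, hg] at h1
      have h3 : a.2 = f ⟨e.val, hlt⟩ := Sum.inl_injective h1
      refine hrep.source ⟨e.val, hlt⟩ (by rw [hM]; trivial) (fun h4 => he ⟨_, h4, rfl⟩) a.1 ?_
      rw [← h3]; exact ha
    · rw [hg' e hlt] at h1
      exact absurd h1 (by simp)
  · rw [ncard_image_of_injective _ hinj, hA]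

theorem addLoops_down (h : n ≤ N) {M : Matroid (Fin n)} (hM : M.E = univ) {k : ℕ}
    (hk : HasStd (addLoops h M) k) : HasStd M k := by
  classical
  obtain ⟨V, hV, A, f, T, hrep, hA⟩ := hk
  -- the target set is independent, so it contains no loop
  have hT : (addLoops h M).Indep T := by
    rw [hrep.rep T (subset_univ _)]
    refine ⟨(fun t => [f t]) '' T, ?_, ?_, ?_, ?_⟩
    · rintro _ ⟨t, _, rfl⟩
      exact ⟨by simp, by simp, by simp⟩
    · rintro _ ⟨t, _, rfl⟩ _ ⟨s, _, rfl⟩ hne v hv1 hv2
      simp only [List.mem_singleton] at hv1 hv2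
      apply hne
      show [f t] = [f s]
      rw [← hv1, ← hv2]
    · rintro _ ⟨t, ht, rfl⟩
      exact ⟨_, ⟨t, ht, rfl⟩, rfl⟩
    · rintro _ ⟨t, ht, rfl⟩
      exact ⟨f t, ⟨t, ht, rfl⟩, rfl⟩
  rw [addLoops_indep] at hT
  have hTim : f '' T = ((Fin.castLEEmb h).trans f) '' (Fin.castLE h ⁻¹' T) := by
    have h1 : Fin.castLE h '' (Fin.castLE h ⁻¹' T) = T := image_preimage_eq_of_subset hT.2
    conv_lhs => rw [← h1]
    rw [image_image]
    rfl
  refine ⟨V, hV, A, (Fin.castLEEmb h).trans f, Fin.castLE h ⁻¹' T,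
    ⟨by rw [hM]; exact subset_univ _, ?_, ?_, ?_⟩, hA⟩
  · intro X _
    have h1 : ((Fin.castLEEmb h).trans f) '' X = f '' (Fin.castLE h '' X) := by
      rw [image_image]; rfl
    rw [h1, ← hTim, ← hrep.rep _ (subset_univ _), addLoops_indep,
      preimage_image_eq _ (Fin.castLE_injective h)]
    exact ⟨fun h2 => ⟨h2, image_subset_range _ _⟩, fun h2 => h2.1⟩
  · intro t ht v
    exact hrep.sink _ ht v
  · intro e _ he v
    exact hrep.source (Fin.castLE h e) (mem_univ _) he v

theorem arcC_addLoops (h : n ≤ N) {M : Matroid (Fin n)} (hM : M.E = univ) {k : ℕ}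
    (hk : HasStd M k) : arcC (addLoops h M) = arcC M := by
  apply le_antisymm
  · exact arcC_le (addLoops_up h hM (arcC_spec hk))
  · exact arcC_le (addLoops_down h hM (arcC_spec (addLoops_up h hM hk)))

end loops

/-! ### Transversal matroids -/

section transversal

variable {α β : Type} [DecidableEq α] [DecidableEq β]

/-- Hall's condition for all subsets of `X`. -/
def Hall (N : α → Finset β) (X : Set α) : Prop :=
  ∀ S : Finset α, (S : Set α) ⊆ X → S.card ≤ (S.biUnion N).card

theorem hall_iff (N : α → Finset β) (X : Set α) :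
    Hall N X ↔ ∃ h : X → β, Function.Injective h ∧ ∀ x : X, h x ∈ N x := by
  constructor
  · intro hX
    rw [← Finset.all_card_le_biUnion_card_iff_exists_injective (fun x : X => N x)]
    intro S
    have h1 := hX (S.map (Function.Embedding.subtype _)) (by
      intro x hx
      rw [Finset.mem_coe, Finset.mem_map] at hx
      obtain ⟨y, _, rfl⟩ := hx
      exact y.2)
    rw [Finset.card_map] at h1
    have h2 : (S.map (Function.Embedding.subtype _)).biUnion N = S.biUnion (fun x : X => N x) := by
      ext b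
      simp
    rwa [h2] at h1
  · rintro ⟨h, hinj, hN⟩ S hS
    rw [← Finset.card_attach]
    have h3 : (S.attach.image (fun x => h ⟨x.1, hS x.2⟩)).card = S.attach.card := by
      apply Finset.card_image_of_injective
      intro x y hxy
      have := hinj hxy
      exact Subtype.ext (congrArg (fun z : X => (z : α)) this)
    rw [← h3]
    apply Finset.card_le_card
    intro b hb
    rw [Finset.mem_image] at hb
    obtain ⟨x, _, rfl⟩ := hb
    rw [Finset.mem_biUnion]
    exact ⟨x.1, x.2, hN _⟩

theorem hall_aug [Finite α] (N : α → Finset β) {X Y : Set α} (hX : Hall N X) (hY : Hall N Y)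
    (hlt : X.ncard < Y.ncard) : ∃ e ∈ Y, e ∉ X ∧ Hall N (insert e X) := by
  classical
  by_contra hcon
  push Not at hcon
  -- tight sets
  have htight : ∀ y ∈ Y, y ∉ X → ∃ S : Finset α, (S : Set α) ⊆ X ∧ (S.biUnion N).card = S.card ∧
      N y ⊆ S.biUnion N := by
    intro y hyY hyX
    have h1 := hcon y hyY hyX
    unfold Hall at h1
    push Not at h1
    obtain ⟨S', hS', hc⟩ := h1
    have hyS : y ∈ S' := by
      by_contra hn
      have : (S' : Set α) ⊆ X := by
        intro x hx
        rcases hS' hx with h | h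
        · subst h; exact absurd hx hn
        · exact h
      have := hX S' this
      omega
    refine ⟨S'.erase y, ?_, ?_, ?_⟩
    · intro x hx
      rw [Finset.mem_coe, Finset.mem_erase] at hx
      rcases hS' hx.2 with h | h
      · exact absurd h hx.1
      · exact h
    · have hs1 : ((S'.erase y : Finset α) : Set α) ⊆ X := by
        intro x hx
        rw [Finset.mem_coe, Finset.mem_erase] at hx
        rcases hS' hx.2 with h | h
        · exact absurd h hx.1
        · exact h
      have h2 := hX _ hs1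
      have h3 : ((S'.erase y).biUnion N).card ≤ (S'.biUnion N).card :=
        Finset.card_le_card (Finset.biUnion_subset_biUnion_of_subset_left _
          (Finset.erase_subset _ _))
      have h4 : (S'.erase y).card + 1 = S'.card := Finset.card_erase_add_one hyS
      omega
    · have hs1 : ((S'.erase y : Finset α) : Set α) ⊆ X := by
        intro x hx
        rw [Finset.mem_coe, Finset.mem_erase] at hx
        rcases hS' hx.2 with h | h
        · exact absurd h hx.1
        · exact h
      have h2 := hX _ hs1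
      have h3 : (S'.erase y).biUnion N ⊆ S'.biUnion N :=
        Finset.biUnion_subset_biUnion_of_subset_left _ (Finset.erase_subset _ _)
      have h4 : (S'.erase y).card + 1 = S'.card := Finset.card_erase_add_one hyS
      have h5 : (S'.erase y).biUnion N = S'.biUnion N :=
        Finset.eq_of_subset_of_card_le h3 (by omega)
      rw [h5]
      exact Finset.subset_biUnion_of_mem N hyS
  -- union of tight sets
  have hunion : ∀ Z : Finset α, (∀ y ∈ Z, y ∈ Y ∧ y ∉ X) →
      ∃ S : Finset α, (S : Set α) ⊆ X ∧ (S.biUnion N).card = S.card ∧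
        ∀ y ∈ Z, N y ⊆ S.biUnion N := by
    intro Z
    induction Z using Finset.induction_on with
    | empty => 
      intro _
      exact ⟨∅, by simp, by simp, by simp⟩
    | insert z Z hz ih =>
      intro hZ
      obtain ⟨S1, a1, a2, a3⟩ := ih (fun y hy => hZ y (Finset.mem_insert_of_mem hy))
      obtain ⟨hz1, hz2⟩ := hZ z (Finset.mem_insert_self _ _)
      obtain ⟨S2, b1, b2, b3⟩ := htight z hz1 hz2
      have hsubX : ((S1 ∪ S2 : Finset α) : Set α) ⊆ X := by
        rw [Finset.coe_union]; exact union_subset a1 b1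
      have hiX : ((S1 ∩ S2 : Finset α) : Set α) ⊆ X := by
        rw [Finset.coe_inter]; exact inter_subset_left.trans a1
      have c1 := hX _ hsubX
      have c2 := hX _ hiX
      have c3 : (S1 ∪ S2).biUnion N = S1.biUnion N ∪ S2.biUnion N := Finset.union_biUnion
      have c4 : (S1 ∩ S2).biUnion N ⊆ S1.biUnion N ∩ S2.biUnion N := by
        apply Finset.subset_inter
        · exact Finset.biUnion_subset_biUnion_of_subset_left _ Finset.inter_subset_left
        · exact Finset.biUnion_subset_biUnion_of_subset_left _ Finset.inter_subset_right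
      have c5 := Finset.card_le_card c4
      have c6 := Finset.card_union_add_card_inter (S1.biUnion N) (S2.biUnion N)
      have c7 := Finset.card_union_add_card_inter S1 S2
      refine ⟨S1 ∪ S2, hsubX, ?_, ?_⟩
      · rw [c3] at c1 ⊢
        omega
      · intro y hy
        rw [c3]
        rcases Finset.mem_insert.1 hy with rfl | hy
        · exact b3.trans Finset.subset_union_right
        · exact (a3 y hy).trans Finset.subset_union_left
  have hfin : (Y \ X).Finite := toFinite _
  obtain ⟨S, h1, h2, h3⟩ := hunion hfin.toFinset (fun y hy => by simpa using hy)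
  -- the contradiction
  have hYf : Y.Finite := toFinite _
  have hXf : X.Finite := toFinite _
  let Y' : Finset α := (S.filter (· ∈ Y)) ∪ hfin.toFinset
  have hY' : (Y' : Set α) ⊆ Y := by
    intro y hy
    simp only [Y', Finset.coe_union, Finset.coe_filter, Finite.coe_toFinset] at hy
    rcases hy with hy | hy
    · exact hy.2
    · exact hy.1
  have h4 := hY Y' hY'
  have h5 : Y'.biUnion N ⊆ S.biUnion N := by
    rw [Finset.union_biUnion]
    apply Finset.union_subset
    · exact Finset.biUnion_subset_biUnion_of_subset_left _ (Finset.filter_subset _ _)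
    · rw [Finset.biUnion_subset]
      exact h3
  have h6 := Finset.card_le_card h5
  have h7 : Disjoint (S.filter (· ∈ Y)) hfin.toFinset := by
    rw [Finset.disjoint_left]
    intro x hx1 hx2
    rw [Finite.mem_toFinset] at hx2
    exact hx2.2 (h1 (Finset.mem_coe.2 (Finset.mem_filter.1 hx1).1))
  have h8 : Y'.card = (S.filter (· ∈ Y)).card + hfin.toFinset.card := Finset.card_union_of_disjoint h7
  have h9 : (S.filter (· ∈ Y)).card + (S.filter (fun x => ¬ x ∈ Y)).card = S.card :=
    Finset.card_filter_add_card_filter_not _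
  have h10 : (S.filter (fun x => ¬ x ∈ Y)).card ≤ (X \ Y).ncard := by
    rw [← ncard_coe_finset]
    apply ncard_le_ncard _ (toFinite _)
    intro x hx
    rw [Finset.mem_coe, Finset.mem_filter] at hx
    exact ⟨h1 (Finset.mem_coe.2 hx.1), hx.2⟩
  have h11 : hfin.toFinset.card = (Y \ X).ncard := (ncard_eq_toFinset_card _ hfin).symm
  have h12 := ncard_inter_add_ncard_sdiff_eq_ncard X Y (toFinite _)
  have h13 := ncard_inter_add_ncard_sdiff_eq_ncard Y X (toFinite _)
  rw [inter_comm] at h13
  omega

/-- The transversal matroid of a family of neighbourhoods. -/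
def trans [Finite α] (N : α → Finset β) : Matroid α :=
  (IndepMatroid.ofFinite (toFinite univ) (Hall N)
    (by
      intro S hS
      have : S = ∅ := by
        rw [Finset.eq_empty_iff_forall_notMem]
        intro x hx
        exact hS (Finset.mem_coe.2 hx)
      subst this
      simp)
    (fun I J hJ hIJ S hS => hJ S (hS.trans hIJ))
    (fun I J hI hJ h => hall_aug N hI hJ h)
    (fun I _ => subset_univ I)).matroid

theorem trans_indep [Finite α] (N : α → Finset β) (X : Set α) : (trans N).Indep X ↔ Hall N X := by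
  simp [trans]

end transversal

/-! ### Fundamental transversal matroids -/

section fund

variable {m : ℕ}

/-- Neighbourhoods: the first `m` elements are the targets, the element `m + j` is joined to the
targets in `G j`. -/
def nbr (G : Fin m → Finset (Fin m)) : Fin (m + m) → Finset (Fin m) :=
  Fin.addCases (fun i => {i}) G

/-- The fundamental transversal matroid. -/
def fund (G : Fin m → Finset (Fin m)) : Matroid (Fin (m + m)) := trans (nbr G)

theorem fund_E (G : Fin m → Finset (Fin m)) : (fund G).E = univ := rfl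

theorem nbr_left (G : Fin m → Finset (Fin m)) (i : Fin m) : nbr G (Fin.castAdd m i) = {i} :=
  Fin.addCases_left i

theorem nbr_right (G : Fin m → Finset (Fin m)) (j : Fin m) : nbr G (Fin.natAdd m j) = G j :=
  Fin.addCases_right j

/-- The arcs of its digraph. -/
def fundArcs (G : Fin m → Finset (Fin m)) : Set (Fin (m + m) × Fin (m + m)) :=
  {a | ∃ j i, i ∈ G j ∧ a = (Fin.natAdd m j, Fin.castAdd m i)}

theorem cast_ne_nat (i j : Fin m) : Fin.castAdd m i ≠ Fin.natAdd m j := by
  intro h
  have := congrArg Fin.val h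
  simp only [Fin.val_castAdd, Fin.val_natAdd] at this
  omega

theorem fund_routing (G : Fin m → Finset (Fin m)) (X : Set (Fin (m + m))) :
    Hall (nbr G) X ↔ ∃ R, IsRouting (fundArcs G) X (range (Fin.castAdd m)) R := by
  classical
  rw [hall_iff]
  constructor
  · rintro ⟨h, hinj, hN⟩
    let pth : X → List (Fin (m + m)) := fun x =>
      if x.1 = Fin.castAdd m (h x) then [x.1] else [x.1, Fin.castAdd m (h x)]
    have hcases : ∀ x : X, (x.1 = Fin.castAdd m (h x) ∧ pth x = [x.1]) ∨
        (x.1 ≠ Fin.castAdd m (h x) ∧ (x.1, Fin.castAdd m (h x)) ∈ fundArcs G ∧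
          pth x = [x.1, Fin.castAdd m (h x)]) := by
      intro x
      by_cases hx : x.1 = Fin.castAdd m (h x)
      · exact Or.inl ⟨hx, if_pos hx⟩
      · refine Or.inr ⟨hx, ?_, if_neg hx⟩
        have hxN := hN x
        obtain ⟨y, hy⟩ : ∃ y, y = x.1 := ⟨_, rfl⟩
        rw [← hy] at hxN hx ⊢
        revert hxN hx
        refine Fin.addCases (fun i => ?_) (fun j => ?_) y
        · intro h2 h1
          rw [nbr_left, Finset.mem_singleton] at h1
          exact absurd (by rw [h1]) h2
        · intro _ h1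
          rw [nbr_right] at h1
          exact ⟨j, h x, h1, rfl⟩
    have hvert : ∀ x : X, ∀ v ∈ pth x, v = x.1 ∨ v = Fin.castAdd m (h x) := by
      intro x v hv
      rcases hcases x with ⟨_, e⟩ | ⟨_, _, e⟩
      · rw [e] at hv; simp at hv; exact Or.inl hv
      · rw [e] at hv; simp at hv; exact hv
    have htarget : ∀ x y : X, x.1 = Fin.castAdd m (h y) → x = y := by
      intro x y hxy
      have hxN := hN x
      rw [hxy, nbr_left, Finset.mem_singleton] at hxN
      exact hinj hxN
    refine ⟨range pth, ?_, ?_, ?_, ?_⟩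
    · rintro _ ⟨x, rfl⟩
      rcases hcases x with ⟨_, e⟩ | ⟨h1, h2, e⟩
      · rw [e]; exact ⟨by simp, by simp, by simp⟩
      · rw [e]
        refine ⟨by simp, by simp [h1], ?_⟩
        simp only [List.isChain_cons_cons, List.isChain_singleton, and_true]
        exact h2
    · rintro _ ⟨x, rfl⟩ _ ⟨y, rfl⟩ hne v hv1 hv2
      have hxy : x ≠ y := by rintro rfl; exact hne rfl
      rcases hvert x v hv1 with e1 | e1 <;> rcases hvert y v hv2 with e2 | e2
      · exact hxy (Subtype.ext (e1.symm.trans e2))
      · exact hxy (htarget x y (e1.symm.trans e2))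
      · exact hxy (htarget y x (e2.symm.trans e1)).symm
      · exact hxy (hinj (Fin.castAdd_injective m m (e1.symm.trans e2)))
    · intro x hx
      refine ⟨pth ⟨x, hx⟩, ⟨_, rfl⟩, ?_⟩
      rcases hcases ⟨x, hx⟩ with ⟨_, e⟩ | ⟨_, _, e⟩
      · rw [e]; rfl
      · rw [e]; rfl
    · rintro _ ⟨x, rfl⟩
      refine ⟨_, ⟨h x, rfl⟩, ?_⟩
      rcases hcases x with ⟨h1, e⟩ | ⟨_, _, e⟩
      · rw [e]
        show some x.1 = _
        rw [← h1]
      · rw [e]; rfl
  · rintro ⟨R, h1, h2, h3, h4⟩
    have key : ∀ x : X, ∃ (i : Fin m) (p : List (Fin (m + m))), p ∈ R ∧ p.head? = some x.1 ∧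
        p.getLast? = some (Fin.castAdd m i) ∧ i ∈ nbr G x.1 := by
      intro x
      obtain ⟨p, hp, hpx⟩ := h3 x.1 x.2
      obtain ⟨_, ⟨i, rfl⟩, hpt⟩ := h4 p hp
      refine ⟨i, p, hp, hpx, hpt, ?_⟩
      obtain ⟨-, -, hch⟩ := h1 p hp
      match p, hpx, hpt, hch with
      | [a], hpx, hpt, _ =>
        have e1 : a = x.1 := Option.some_injective _ hpx
        have e2 : a = Fin.castAdd m i := Option.some_injective _ hpt
        rw [← e1, e2, nbr_left]
        exact Finset.mem_singleton_self _
      | [a, b], hpx, hpt, hch =>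
        have e1 : a = x.1 := Option.some_injective _ hpx
        have e2 : b = Fin.castAdd m i := Option.some_injective _ hpt
        rw [List.isChain_cons_cons] at hch
        obtain ⟨j, i', hi', hab⟩ := hch.1
        rw [Prod.mk.injEq] at hab
        rw [← e1, hab.1, nbr_right]
        have e3 : i = i' := Fin.castAdd_injective m m (e2.symm.trans hab.2)
        rw [e3]; exact hi'
      | a :: b :: c :: l, _, _, hch =>
        rw [List.isChain_cons_cons, List.isChain_cons_cons] at hch
        obtain ⟨j, i', hi', hab⟩ := hch.1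
        obtain ⟨j', i'', hi'', hbc⟩ := hch.2.1
        rw [Prod.mk.injEq] at hab hbc
        exact absurd (hab.2.symm.trans hbc.1) (cast_ne_nat _ _)
    choose g p hp hh hl hN using key
    refine ⟨g, ?_, hN⟩
    intro x y hxy
    by_contra hne
    have hpne : p x ≠ p y := by
      intro heq
      have h5 := hh x
      rw [heq, hh y] at h5
      exact hne (Subtype.ext (Option.some_injective _ h5)).symm
    have h6 := List.mem_of_getLast? (hl x)
    have h7 := List.mem_of_getLast? (hl y)
    rw [← hxy] at h7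
    exact h2 _ (hp x) _ (hp y) hpne _ h6 h7

theorem fund_std (G : Fin m → Finset (Fin m)) : ∃ k, HasStd (fund G) k := by
  refine ⟨_, Fin (m + m), inferInstance, fundArcs G, Function.Embedding.refl _,
    range (Fin.castAdd m), ⟨subset_univ _, ?_, ?_, ?_⟩, rfl⟩
  · intro X _
    have e1 : (Function.Embedding.refl (Fin (m + m))) '' X = X := image_id X
    have e2 : (Function.Embedding.refl (Fin (m + m))) '' range (Fin.castAdd m) =
      range (Fin.castAdd m) := image_id _
    rw [e1, e2]
    show (trans (nbr G)).Indep X ↔ _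
    rw [trans_indep]
    exact fund_routing G X
  · rintro _ ⟨i, rfl⟩ v ⟨j, i', _, h⟩
    rw [Prod.mk.injEq] at h
    exact cast_ne_nat _ _ h.1
  · rintro e _ he v ⟨j, i', _, h⟩
    rw [Prod.mk.injEq] at h
    exact he ⟨i', h.2.symm⟩

theorem fund_mem_iff (G : Fin m → Finset (Fin m)) (i j : Fin m) :
    i ∈ G j ↔ (fund G).Indep (insert (Fin.natAdd m j) (Fin.castAdd m '' {i' | i' ≠ i})) := by
  classical
  show _ ↔ (trans (nbr G)).Indep _
  rw [trans_indep]
  constructor
  · intro hi
    rw [hall_iff]
    have hex : ∀ x : (insert (Fin.natAdd m j) (Fin.castAdd m '' {i' | i' ≠ i}) :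
        Set (Fin (m + m))), ∃ b : Fin m, (x.1 = Fin.natAdd m j ∧ b = i) ∨
          (x.1 = Fin.castAdd m b ∧ b ≠ i) := by
      rintro ⟨x, hx⟩
      rcases hx with hx | ⟨i', hi', hx⟩
      · exact ⟨i, Or.inl ⟨hx, rfl⟩⟩
      · exact ⟨i', Or.inr ⟨hx.symm, hi'⟩⟩
    choose h hh using hex
    refine ⟨h, ?_, ?_⟩
    · intro x y hxy
      rcases hh x with ⟨a1, a2⟩ | ⟨a1, a2⟩ <;> rcases hh y with ⟨b1, b2⟩ | ⟨b1, b2⟩
      · exact Subtype.ext (a1.trans b1.symm)
      · rw [a2] at hxy; exact absurd hxy.symm b2
      · rw [b2] at hxy; exact absurd hxy a2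
      · apply Subtype.ext; rw [a1, b1, hxy]
    · intro x
      rcases hh x with ⟨a1, a2⟩ | ⟨a1, a2⟩
      · rw [a1, a2, nbr_right]; exact hi
      · rw [a1, nbr_left]; exact Finset.mem_singleton_self _
  · intro hH
    by_contra hi
    have h1 := hH (insert (Fin.natAdd m j) ((Finset.univ.erase i).map (Fin.castAddEmb m)))
      (by
        rw [Finset.coe_insert]
        apply insert_subset_insert
        intro x hx
        rw [Finset.mem_coe, Finset.mem_map] at hx
        obtain ⟨i', hi', rfl⟩ := hx
        exact ⟨i', (Finset.mem_erase.1 hi').1, rfl⟩)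
    rw [Finset.card_insert_of_notMem (by
      rw [Finset.mem_map]
      rintro ⟨i', _, h⟩
      exact cast_ne_nat _ _ h), Finset.card_map, Finset.card_erase_of_mem (Finset.mem_univ _),
      Finset.card_univ, Fintype.card_fin] at h1
    have h2 : (insert (Fin.natAdd m j) ((Finset.univ.erase i).map (Fin.castAddEmb m))).biUnion
        (nbr G) ⊆ Finset.univ.erase i := by
      rw [Finset.biUnion_subset]
      intro x hx
      rcases Finset.mem_insert.1 hx with rfl | hx
      · rw [nbr_right]
        intro b hb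
        rw [Finset.mem_erase]
        exact ⟨fun h => hi (h ▸ hb), Finset.mem_univ _⟩
      · rw [Finset.mem_map] at hx
        obtain ⟨i', hi', rfl⟩ := hx
        have : nbr G (Fin.castAddEmb m i') = {i'} := nbr_left G i'
        rw [this, Finset.singleton_subset_iff]
        exact hi'
    have h3 := Finset.card_le_card h2
    rw [Finset.card_erase_of_mem (Finset.mem_univ _), Finset.card_univ, Fintype.card_fin] at h3
    have h4 : 0 < m := i.pos
    omega

theorem fund_inj {G G' : Fin m → Finset (Fin m)}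
    (h : ∀ X, (fund G).Indep X ↔ (fund G').Indep X) : G = G' := by
  funext j
  ext i
  rw [fund_mem_iff, fund_mem_iff, h]

end fund

/-! ### Counting matroids of small arc-complexity -/

section counting

/-- Routings can be transported along maps injective on the relevant vertices. -/
theorem routing_map {V W : Type} {φ : V → W} {U : Set V} (hφ : InjOn φ U) {A : Set (V × V)}
    {X T : Set V} {R : Set (List V)} (hA : ∀ a ∈ A, a.1 ∈ U) (hT : T ⊆ U)
    (h : IsRouting A X T R) :
    IsRouting (Prod.map φ φ '' A) (φ '' X) (φ '' T) (List.map φ '' R) := by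
  obtain ⟨h1, h2, h3, h4⟩ := h
  have hmem : ∀ p ∈ R, ∀ v ∈ p, v ∈ U := by
    intro p hp
    refine path_mem hA p (h1 p hp).2.2 ?_
    intro t ht
    obtain ⟨t', ht', hpt⟩ := h4 p hp
    rw [ht] at hpt
    rw [Option.some_injective _ hpt]
    exact hT ht'
  refine ⟨?_, ?_, ?_, ?_⟩
  · rintro _ ⟨p, hp, rfl⟩
    obtain ⟨e1, e2, e3⟩ := h1 p hp
    refine ⟨by simpa using e1, ?_, ?_⟩
    · exact e2.map_on (fun x hx y hy hxy => hφ (hmem p hp x hx) (hmem p hp y hy) hxy)
    · rw [List.isChain_map]
      exact e3.imp (fun a b hab => ⟨(a, b), hab, rfl⟩)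
  · rintro _ ⟨p, hp, rfl⟩ _ ⟨q, hq, rfl⟩ hne v hv1 hv2
    rw [List.mem_map] at hv1 hv2
    obtain ⟨a, ha, rfl⟩ := hv1
    obtain ⟨b, hb, hab⟩ := hv2
    have := hφ (hmem q hq b hb) (hmem p hp a ha) hab
    rw [this] at hb
    exact h2 p hp q hq (fun he => hne (by rw [he])) a ha hb
  · rintro _ ⟨x, hx, rfl⟩
    obtain ⟨p, hp, hpx⟩ := h3 x hx
    refine ⟨_, ⟨p, hp, rfl⟩, ?_⟩
    rw [List.head?_map, hpx]; rfl
  · rintro _ ⟨p, hp, rfl⟩
    obtain ⟨t, ht, hpt⟩ := h4 p hp
    refine ⟨_, ⟨t, ht, rfl⟩, ?_⟩
    rw [List.getLast?_map, hpt]; rfl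

/-- The vertices used in the encoding. -/
abbrev Wt (n k : ℕ) : Type := Fin n ⊕ Fin (k + k)

/-- The independence predicate encoded by a sequence of arcs and a target set. -/
def decode (n k : ℕ) (c : (Fin k → Option (Wt n k × Wt n k)) × Finset (Fin n)) :
    Set (Fin n) → Prop :=
  fun X => ∃ R, IsRouting {a | ∃ i, c.1 i = some a} (Sum.inl '' X) (Sum.inl '' (c.2 : Set (Fin n))) R

theorem exists_enum {γ : Type} {A : Set γ} (hfin : A.Finite) {k : ℕ} (hA : A.ncard ≤ k) :
    ∃ s : Fin k → Option γ, {a | ∃ i, s i = some a} = A := by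
  classical
  have hc : hfin.toFinset.card ≤ k := by rwa [← ncard_eq_toFinset_card _ hfin]
  let φ := hfin.toFinset.equivFin
  refine ⟨fun i => if h : i.val < hfin.toFinset.card then some (φ.symm ⟨i.val, h⟩).1 else none, ?_⟩
  ext a
  constructor
  · rintro ⟨i, hi⟩
    by_cases h : i.val < hfin.toFinset.card
    · simp only [dif_pos h] at hi
      rw [← Option.some_injective _ hi]
      have := (φ.symm ⟨i.val, h⟩).2
      rwa [Finite.mem_toFinset] at this
    · simp only [dif_neg h] at hi
      exact absurd hi (by simp)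
  · intro ha
    have ha' : a ∈ hfin.toFinset := by rwa [Finite.mem_toFinset]
    refine ⟨⟨(φ ⟨a, ha'⟩).val, lt_of_lt_of_le (φ ⟨a, ha'⟩).2 hc⟩, ?_⟩
    have : (φ ⟨a, ha'⟩).val < hfin.toFinset.card := (φ ⟨a, ha'⟩).2
    simp only [dif_pos this]
    simp

theorem exists_code {n k : ℕ} {M : Matroid (Fin n)} (hM : M.E = univ) (hn : 0 < n)
    (hstd : ∃ k', HasStd M k') (hk : arcC M ≤ k) :
    ∃ c, decode n k c = fun X => M.Indep X := by
  classical
  obtain ⟨k', hk'⟩ := hstd
  obtain ⟨V, hV, A, f, T, hrep, hA⟩ := arcC_spec hk'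
  have hAk : A.ncard ≤ k := by rw [hA]; exact hk
  -- the relevant vertices outside the ground set
  set U0 : Set V := (Prod.fst '' A ∪ Prod.snd '' A) \ range f with hU0
  have hU0c : U0.ncard ≤ k + k := by
    refine (ncard_le_ncard sdiff_subset (toFinite _)).trans ?_
    refine (ncard_union_le _ _).trans ?_
    exact Nat.add_le_add ((ncard_image_le (toFinite _)).trans hAk)
      ((ncard_image_le (toFinite _)).trans hAk)
  have hq : ∃ q : U0 → Fin (k + k), Function.Injective q := by
    have : Fintype U0 := Fintype.ofFinite _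
    rw [← Nat.card_coe_set_eq, Nat.card_eq_fintype_card] at hU0c
    have h1 : Fintype.card U0 ≤ Fintype.card (Fin (k + k)) := by rwa [Fintype.card_fin]
    obtain ⟨q⟩ := Function.Embedding.nonempty_of_card_le h1
    exact ⟨q, q.injective⟩
  obtain ⟨q, hq⟩ := hq
  let φ : V → Wt n k := fun v =>
    if h : v ∈ range f then Sum.inl h.choose else
      if h' : v ∈ U0 then Sum.inr (q ⟨v, h'⟩) else Sum.inl ⟨0, hn⟩
  have hφf : ∀ x, φ (f x) = Sum.inl x := by
    intro x
    have h : f x ∈ range f := ⟨x, rfl⟩
    show (dite _ _ _) = _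
    rw [dif_pos h]
    rw [f.injective h.choose_spec]
  have hφU : ∀ v (h : v ∈ U0), φ v = Sum.inr (q ⟨v, h⟩) := by
    intro v h
    show (dite _ _ _) = _
    rw [dif_neg h.2, dif_pos h]
  set U : Set V := range f ∪ U0 with hU
  have hinj : InjOn φ U := by
    rintro v (⟨x, rfl⟩ | hv) w (⟨y, rfl⟩ | hw) h
    · rw [hφf, hφf] at h
      rw [Sum.inl_injective h]
    · rw [hφf, hφU w hw] at h; exact absurd h (by simp)
    · rw [hφf, hφU v hv] at h; exact absurd h (by simp)
    · rw [hφU v hv, hφU w hw] at h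
      exact congrArg (fun z : U0 => (z : V)) (hq (Sum.inr_injective h))
  have hA1 : ∀ a ∈ A, a.1 ∈ U := by
    intro a ha
    by_cases h : a.1 ∈ range f
    · exact Or.inl h
    · exact Or.inr ⟨Or.inl ⟨a, ha, rfl⟩, h⟩
  have hA2 : ∀ a ∈ A, a.2 ∈ U := by
    intro a ha
    by_cases h : a.2 ∈ range f
    · exact Or.inl h
    · exact Or.inr ⟨Or.inr ⟨a, ha, rfl⟩, h⟩
  have hTU : f '' T ⊆ U := (image_subset_range _ _).trans subset_union_left
  obtain ⟨s, hs⟩ := exists_enum (toFinite (Prod.map φ φ '' A))
    ((ncard_image_le (toFinite _)).trans hAk)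
  have hTfin : T.Finite := toFinite _
  refine ⟨(s, hTfin.toFinset), ?_⟩
  funext X
  rw [eq_iff_iff]
  have himX : ∀ Y : Set (Fin n), φ '' (f '' Y) = Sum.inl '' Y := by
    intro Y
    rw [image_image]
    exact image_congr (fun x _ => hφf x)
  show (∃ R, IsRouting {a | ∃ i, s i = some a} (Sum.inl '' X)
    (Sum.inl '' (hTfin.toFinset : Set (Fin n))) R) ↔ _
  rw [hs, Finite.coe_toFinset, ← himX X, ← himX T, hrep.rep X (by rw [hM]; exact subset_univ _)]
  constructor
  · rintro ⟨R, hR⟩
    -- pull back
    have : Nonempty V := ⟨f ⟨0, hn⟩⟩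
    let ρ : Wt n k → V := Function.invFunOn φ U
    have hρ : ∀ v ∈ U, ρ (φ v) = v := fun v hv => hinj.leftInvOn_invFunOn hv
    have hρinj : InjOn ρ (φ '' U) := by
      rintro _ ⟨v, hv, rfl⟩ _ ⟨w, hw, rfl⟩ h
      rw [hρ v hv, hρ w hw] at h
      rw [h]
    have h1 := routing_map hρinj (A := Prod.map φ φ '' A) (X := φ '' (f '' X)) (T := φ '' (f '' T))
      (by rintro _ ⟨a, ha, rfl⟩; exact ⟨a.1, hA1 a ha, rfl⟩) (image_mono hTU) hR
    have e1 : Prod.map ρ ρ '' (Prod.map φ φ '' A) = A := by
      rw [image_image]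
      have : ∀ a ∈ A, Prod.map ρ ρ (Prod.map φ φ a) = a := by
        intro a ha
        exact Prod.ext (hρ _ (hA1 a ha)) (hρ _ (hA2 a ha))
      exact (image_congr this).trans (image_id' A)
    have e2 : ∀ Y : Set (Fin n), ρ '' (φ '' (f '' Y)) = f '' Y := by
      intro Y
      rw [image_image]
      have : ∀ v ∈ f '' Y, ρ (φ v) = v := by
        rintro _ ⟨y, _, rfl⟩
        exact hρ _ (Or.inl ⟨y, rfl⟩)
      exact (image_congr this).trans (image_id' _)
    rw [e1, e2, e2] at h1
    exact ⟨_, h1⟩
  · rintro ⟨R, hR⟩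
    exact ⟨_, routing_map hinj hA1 hTU hR⟩

theorem count_bound {m k : ℕ} (hm : 0 < m)
    (hall : ∀ G : Fin m → Finset (Fin m), arcC (fund G) ≤ k) :
    (2 ^ m) ^ m ≤ ((m + m + (k + k)) * (m + m + (k + k)) + 1) ^ k * 2 ^ (m + m) := by
  classical
  have hcode : ∀ G : Fin m → Finset (Fin m), ∃ c, decode (m + m) k c = fun X => (fund G).Indep X :=
    fun G => exists_code (fund_E G) (by omega) (fund_std G) (hall G)
  choose c hc using hcode
  have hinj : Function.Injective c := by
    intro G G' h
    apply fund_inj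
    intro X
    have h1 := congrFun (hc G) X
    have h2 := congrFun (hc G') X
    rw [h, h2] at h1
    rw [← h1]
  have h1 := Fintype.card_le_of_injective c hinj
  rw [Fintype.card_fun, Fintype.card_finset, Fintype.card_fin, Fintype.card_prod,
    Fintype.card_fun, Fintype.card_option, Fintype.card_prod, Fintype.card_sum, Fintype.card_fin,
    Fintype.card_fin, Fintype.card_fin, Fintype.card_finset, Fintype.card_fin] at h1
  exact h1

/-- There are gammoids with large ratio and many elements. -/
theorem exists_large (c : ℕ) : ∃ (m : ℕ) (G : Fin m → Finset (Fin m)),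
    c ≤ m ∧ 0 < m ∧ c * (m + m) < arcC (fund G) := by
  by_contra hcon
  push Not at hcon
  set j := 4 * c + 8 with hj
  set m := 2 ^ j with hmdef
  have hjm : c ≤ m := by
    have : j < 2 ^ j := Nat.lt_two_pow_self
    omega
  have hmpos : 0 < m := by positivity
  have h1 := count_bound (k := c * (m + m)) hmpos (fun G => hcon m G hjm hmpos)
  -- the base
  set w := m + m + (c * (m + m) + c * (m + m)) with hw
  have hw1 : w * w + 1 ≤ (2 ^ (j + 2 + c)) ^ 2 := by
    have hc1 : c + 1 ≤ 2 ^ c := Nat.lt_two_pow_self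
    have h2 : w + 1 ≤ 2 ^ (j + 2 + c) := by
      have e1 : 2 ^ (j + 2 + c) = m * 4 * 2 ^ c := by
        rw [pow_add, pow_add, ← hmdef]; norm_num
      have e2 : w = 2 * m * (1 + 2 * c) := by rw [hw]; ring
      rw [e1, e2]
      have : m * 4 * (c + 1) ≤ m * 4 * 2 ^ c := Nat.mul_le_mul_left _ hc1
      nlinarith
    calc w * w + 1 ≤ (w + 1) ^ 2 := by nlinarith
      _ ≤ _ := Nat.pow_le_pow_left h2 2
  have h2 : ((2 : ℕ) ^ m) ^ m = 2 ^ (m * m) := by rw [pow_mul]
  have h3 : (w * w + 1) ^ (c * (m + m)) * 2 ^ (m + m) ≤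
      2 ^ ((j + 2 + c) * 2 * (c * (m + m)) + (m + m)) := by
    rw [pow_add 2 ((j + 2 + c) * 2 * (c * (m + m))) (m + m),
      pow_mul 2 ((j + 2 + c) * 2) (c * (m + m)), pow_mul 2 (j + 2 + c) 2]
    exact Nat.mul_le_mul_right _ (Nat.pow_le_pow_left hw1 _)
  rw [h2] at h1
  have h4 := (Nat.pow_le_pow_iff_right (by norm_num : 1 < 2)).1 (h1.trans h3)
  -- exponents
  have h5 : m ≤ (j + 2 + c) * 2 * (c * 2) + 2 := by
    have e1 : (j + 2 + c) * 2 * (c * (m + m)) + (m + m) = m * ((j + 2 + c) * 2 * (c * 2) + 2) := by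
      ring
    rw [e1] at h4
    exact Nat.le_of_mul_le_mul_left h4 hmpos
  have h6 : 256 * ((1 + 3 * c) * (1 + 3 * c)) ≤ m := by
    have h7 : 1 + 3 * c ≤ 4 ^ c := by
      clear * -
      induction c with
      | zero => norm_num
      | succ c ih => rw [pow_succ]; nlinarith
    have e1 : m = 256 * (4 ^ c * 4 ^ c) := by
      rw [hmdef, hj, pow_add, ← pow_add 4 c c, show (4 : ℕ) = 2 ^ 2 by norm_num, ← pow_mul]
      have : 2 ^ 2 * c = 2 * (c + c) := by ring
      rw [this]
      norm_num
      ring
    rw [e1]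
    exact Nat.mul_le_mul_left _ (Nat.mul_le_mul h7 h7)
  have h7 : (j + 2 + c) * 2 * (c * 2) + 2 = 20 * c * c + 40 * c + 2 := by
    rw [hj]; ring
  nlinarith

end counting

/-- **Affirmative answer to Q1.**  The ratios `arcC(M) / |E|`, over all gammoids `M` on a
non-empty ground set `E`, are dense in the positive reals. -/
theorem result : ∀ a b : ℝ, 0 < a → a < b → ∃ x ∈ ratios, a < x ∧ x < b := by
  intro a b ha hab
  have hb : 0 < b := ha.trans hab
  obtain ⟨c, hc⟩ := exists_nat_gt (max b (b / (b - a)))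
  have hcb : b < c := (le_max_left _ _).trans_lt hc
  have hcb' : b / (b - a) < c := (le_max_right _ _).trans_lt hc
  obtain ⟨m, G, hcm, hm, hlarge⟩ := exists_large c
  set a0 := arcC (fund G) with ha0
  have hba : 0 < b - a := sub_pos.2 hab
  have hcpos : (0 : ℝ) < c := hb.trans hcb
  have ha0' : (c : ℝ) * (m + m) < a0 := by exact_mod_cast hlarge
  have hmr : (0 : ℝ) < m := by exact_mod_cast hm
  have hcmr : (c : ℝ) ≤ m := by exact_mod_cast hcm
  set N := ⌊(a0 : ℝ) / b⌋₊ + 1 with hN
  have hN1 : (a0 : ℝ) / b < N := by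
    rw [hN]; push_cast; exact Nat.lt_floor_add_one _
  have hN2 : (N : ℝ) ≤ a0 / b + 1 := by
    rw [hN]; push_cast
    have := Nat.floor_le (show (0 : ℝ) ≤ a0 / b by positivity)
    linarith
  have hNn : m + m ≤ N := by
    have h1 : ((m + m : ℕ) : ℝ) < N := by
      push_cast
      refine lt_trans ?_ hN1
      rw [lt_div_iff₀ hb]
      nlinarith
    exact_mod_cast h1.le
  have hNpos : 0 < N := by omega
  have hNr : (0 : ℝ) < N := by exact_mod_cast hNpos
  obtain ⟨k, hk⟩ := fund_std G
  refine ⟨(a0 : ℝ) / N, ⟨N, addLoops hNn (fund G), hNpos, rfl,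
    (addLoops_up hNn (fund_E G) hk).gammoid, ?_⟩, ?_, ?_⟩
  · rw [arcC_addLoops hNn (fund_E G) hk]
  · rw [lt_div_iff₀ hNr]
    have h1 : a * N ≤ a * (a0 / b + 1) := mul_le_mul_of_nonneg_left hN2 ha.le
    have h2 : a * b / (b - a) < a0 := by
      have h3 : b / (b - a) * a < c * (m + m) := by
        have h4 : a < m + m := by linarith
        have h5 : 0 < b / (b - a) := by positivity
        calc b / (b - a) * a < c * a := by
              exact mul_lt_mul_of_pos_right hcb' ha
          _ < c * (m + m) := by exact mul_lt_mul_of_pos_left h4 hcpos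
      have h6 : a * b / (b - a) = b / (b - a) * a := by ring
      rw [h6]
      linarith
    have h3 : a * (a0 / b + 1) < a0 := by
      rw [div_lt_iff₀ hba] at h2
      have h4 : a * ((a0 : ℝ) / b + 1) = (a * a0 + a * b) / b := by
        field_simp
      rw [h4, div_lt_iff₀ hb]
      nlinarith
    linarith
  · rw [div_lt_iff₀ hNr]
    rw [div_lt_iff₀ hb] at hN1
    linarith

end Pool.Agent.Results.MP_1bde1f_co.DenseRatios
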